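import Mathlib

set_option autoImplicit false

/-! # The sizes -/

namespace Pool.Agent.L7h34.NG

open Filter

/-- the length `log X (log₂ X)^(1+δ) / (log₃ X)^δ` -/
noncomputable def ll (δ X : ℝ) : ℝ :=
  Real.log X * (Real.log (Real.log X)) ^ (1 + δ) / (Real.log (Real.log (Real.log X))) ^ δ

theorem ana (N a : ℕ) (hN : 1 ≤ N) (δ : ℝ) (h0 : 0 ≤ δ) (h1 : δ ≤ 1) (C c₁ : ℝ) (hC : 0 < C) (hc₁ : 0 < c₁) :
    ∃ c : ℝ, 0 < c ∧ ∀ᶠ X : ℝ in atTop, ∀ y : ℝ, y = Real.log X / 100 →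
      ∀ T₁ T₂ B Z : ℕ, T₁ = ⌊c * ll δ X⌋₊ → T₂ = ⌊c * Real.log X⌋₊ → B = N * T₁ + a →
      Z = max ⌊(B : ℝ) / y⌋₊ 3 →
      (3 ≤ y ∧ (B : ℝ) ≤ y ^ 2 ∧ ((N * T₂ + a : ℕ) : ℝ) ≤ y ∧ (T₁ : ℝ) ≤ (Real.log X) ^ 2) ∧
      C * (B / Real.log y) * (Real.log (Z : ℝ)) ^ δ / (Real.log (⌊y⌋₊ : ℝ)) ^ δ ≤ c₁ * Real.log X ∧
      (10000 ≤ Real.log X ∧ 100 ≤ X ∧ y ≤ X ^ (1 / 10 : ℝ) ∧ X ^ (1 / 10 : ℝ) ≤ X / 100 ∧
        3 ≤ ⌊y⌋₊) := by
  have hN0 : (0 : ℝ) < N := by exact_mod_cast hN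
  obtain ⟨c, hcd⟩ : ∃ c, c = min (c₁ / (48 * C * N + 1)) (1 / (200 * N)) := ⟨_, rfl⟩
  have hc : 0 < c := by
    rw [hcd]
    exact lt_min (by positivity) (by positivity)
  have hca : c * (48 * C * N) ≤ c₁ := by
    have h2 : c ≤ c₁ / (48 * C * N + 1) := by rw [hcd]; exact min_le_left _ _
    rw [le_div_iff₀ (by positivity)] at h2
    nlinarith
  have hcb : c * (200 * N) ≤ 1 := by
    have h2 : c ≤ 1 / (200 * N) := by rw [hcd]; exact min_le_right _ _
    rwa [le_div_iff₀ (by positivity)] at h2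
  refine ⟨c, hc, ?_⟩
  have t1 : Tendsto (fun Y : ℝ => Real.log Y) atTop atTop := Real.tendsto_log_atTop
  have t2 : Tendsto (fun Y : ℝ => Real.log (Real.log Y)) atTop atTop := t1.comp t1
  have t3 : Tendsto (fun Y : ℝ => Real.log (Real.log (Real.log Y))) atTop atTop := t1.comp t2
  have e3 : (fun X : ℝ => (Real.log X) ^ (3 : ℕ)) =o[atTop] (fun X : ℝ => X) :=
    Real.isLittleO_pow_log_id_atTop
  have e4 := t1.eventually (e3.def (show (0 : ℝ) < 1 / 20000 by norm_num))
  have e5 := (tendsto_rpow_atTop (show (0 : ℝ) < 9 / 10 by norm_num)).eventually_ge_atTop (100 : ℝ)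
  filter_upwards [t1.eventually_ge_atTop 10000, t1.eventually_ge_atTop (200 * a), t2.eventually_ge_atTop 16,
    t2.eventually_ge_atTop (400 * N * c + 1), t3.eventually_ge_atTop 2, t1.eventually_ge_atTop (a / (N * c)), e4,
    eventually_ge_atTop (100 : ℝ), e5] with X x1 x2 x3 x4 x5 x6 x7 x8 x9
  intro y hy T₁ T₂ B Z hT₁ hT₂ hB hZ
  have hX0 : (0 : ℝ) < X := by linarith
  obtain ⟨L, hL⟩ : ∃ L, L = Real.log X := ⟨_, rfl⟩
  obtain ⟨l, hl⟩ : ∃ l, l = Real.log L := ⟨_, rfl⟩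
  obtain ⟨m, hm⟩ : ∃ m, m = Real.log l := ⟨_, rfl⟩
  rw [← hL] at x1 x2 x3 x4 x5 x6 x7 hy hT₂ ⊢
  rw [← hl] at x3 x4 x5 x7
  rw [← hm] at x5
  have hll : ll δ X = L * l ^ (1 + δ) / m ^ δ := by
    unfold ll
    rw [← hL, ← hl, ← hm]
  rw [hll] at hT₁
  have hL0 : 0 < L := by linarith
  have hl0 : 0 < l := by linarith
  have hm0 : 0 < m := by linarith
  have hlL : l ^ 3 * 20000 ≤ L := by
    rw [Real.norm_of_nonneg (by positivity), Real.norm_of_nonneg hL0.le] at x7
    linarith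
  have hml : m ≤ l := by
    have := Real.log_le_sub_one_of_pos hl0
    rw [hm]; linarith
  -- size of ll
  obtain ⟨G, hG⟩ : ∃ G, G = L * l ^ (1 + δ) / m ^ δ := ⟨_, rfl⟩
  rw [← hG] at hT₁
  have hmδ : 1 ≤ m ^ δ := Real.one_le_rpow (by linarith) h0
  have hlδ : 1 ≤ l ^ (1 + δ) := Real.one_le_rpow (by linarith) (by linarith)
  have hlδ2 : l ^ (1 + δ) ≤ l ^ 2 := by
    rw [← Real.rpow_natCast]
    apply Real.rpow_le_rpow_of_exponent_le (by linarith)
    push_cast
    linarith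
  have hlm : m ^ δ ≤ l ^ (1 + δ) := by
    calc m ^ δ ≤ l ^ δ := Real.rpow_le_rpow hm0.le hml h0
      _ ≤ l ^ (1 + δ) := Real.rpow_le_rpow_of_exponent_le (by linarith) (by linarith)
  have hGL : L ≤ G := by
    rw [hG, le_div_iff₀ (by linarith)]
    exact mul_le_mul_of_nonneg_left hlm hL0.le
  have hGl : G ≤ L * l ^ 2 := by
    rw [hG, div_le_iff₀ (by linarith)]
    have h2 : L * l ^ (1 + δ) ≤ L * l ^ 2 := mul_le_mul_of_nonneg_left hlδ2 hL0.le
    have h3 : L * l ^ 2 * 1 ≤ L * l ^ 2 * m ^ δ := mul_le_mul_of_nonneg_left hmδ (by positivity)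
    linarith
  have hG0 : 0 < G := by linarith
  have hT₁le : (T₁ : ℝ) ≤ c * G := by rw [hT₁]; exact Nat.floor_le (by positivity)
  have hT₂le : (T₂ : ℝ) ≤ c * L := by rw [hT₂]; exact Nat.floor_le (by positivity)
  have hBle : (B : ℝ) ≤ 2 * N * c * G := by
    have h2 : (B : ℝ) = N * T₁ + a := by rw [hB]; push_cast; ring
    have h3 : (a : ℝ) ≤ N * c * G := by
      rw [div_le_iff₀ (by positivity)] at x6
      calc (a : ℝ) ≤ L * (N * c) := x6
        _ ≤ G * (N * c) := by gcongr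
        _ = _ := by ring
    have h4 : (N : ℝ) * T₁ ≤ N * (c * G) := mul_le_mul_of_nonneg_left hT₁le hN0.le
    rw [h2]
    linarith
  have hNc : N * c * 400 ≤ l := by linarith
  have hNc2 : (N : ℝ) * c ≤ 1 / 200 := by linarith
  have hy0 : 0 < y := by rw [hy]; positivity
  have hlogy : l / 2 ≤ Real.log y := by
    rw [hy, Real.log_div (by linarith) (by norm_num), ← hl]
    have h2 : Real.log 100 ≤ 8 := by
      have : Real.log 100 ≤ Real.log ((2 : ℝ) ^ 7) := Real.log_le_log (by norm_num) (by norm_num)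
      rw [Real.log_pow] at this
      have := Real.log_two_lt_d9
      push_cast at *
      linarith
    linarith
  have hy100 : 100 ≤ y := by rw [hy]; linarith
  have hfy : y / 2 ≤ (⌊y⌋₊ : ℝ) := by
    have := Nat.sub_one_lt_floor y
    linarith
  have hlogf : l / 2 ≤ Real.log (⌊y⌋₊ : ℝ) := by
    have h2 : Real.log (L / 200) ≤ Real.log (⌊y⌋₊ : ℝ) := by
      apply Real.log_le_log (by positivity)
      have : y / 2 = L / 200 := by rw [hy]; ring
      linarith
    refine le_trans ?_ h2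
    rw [Real.log_div (by linarith) (by norm_num), ← hl]
    have h2 : Real.log 200 ≤ 8 := by
      have : Real.log 200 ≤ Real.log ((2 : ℝ) ^ 8) := Real.log_le_log (by norm_num) (by norm_num)
      rw [Real.log_pow] at this
      have := Real.log_two_lt_d9
      push_cast at *
      linarith
    linarith
  have hBy : (B : ℝ) ≤ y ^ 2 := by
    have h2 : (B : ℝ) ≤ 2 * (1 / 200) * (L * l ^ 2) := by
      refine hBle.trans ?_
      calc 2 * N * c * G = 2 * (N * c) * G := by ring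
        _ ≤ 2 * (1 / 200) * (L * l ^ 2) := by gcongr
    have h3 : L * l ^ 2 * 100 ≤ L * L := by
      have : l ^ 2 * 100 ≤ L := by
        have h33 : l ^ 2 * 1 ≤ l ^ 2 * l := mul_le_mul_of_nonneg_left (by linarith) (by positivity)
        have h34 : l ^ 3 = l ^ 2 * l := by ring
        have h35 : 0 ≤ l ^ 3 := by positivity
        linarith
      calc L * l ^ 2 * 100 = L * (l ^ 2 * 100) := by ring
        _ ≤ L * L := mul_le_mul_of_nonneg_left this hL0.le
    have h4 : y ^ 2 = L * L / 10000 := by rw [hy]; ring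
    rw [h4]
    linarith
  refine ⟨⟨by linarith, hBy, ?_, ?_⟩, ?_, x1, x8, ?_, ?_, ?_⟩
  · push_cast
    have h2 : (N : ℝ) * T₂ ≤ N * (c * L) := mul_le_mul_of_nonneg_left hT₂le hN0.le
    have h3 : (N : ℝ) * (c * L) ≤ L / 200 := by
      calc (N : ℝ) * (c * L) = (N * c) * L := by ring
        _ ≤ (1 / 200) * L := mul_le_mul_of_nonneg_right hNc2 hL0.le
        _ = L / 200 := by ring
    rw [hy]
    linarith
  · have h2 : c * G ≤ c * (L * l ^ 2) := mul_le_mul_of_nonneg_left hGl hc.le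
    have h3 : c ≤ 1 := by
      have hN1 : (1 : ℝ) ≤ N := by exact_mod_cast hN
      have : 1 * c ≤ N * c := mul_le_mul_of_nonneg_right hN1 hc.le
      linarith
    have h4 : c * (L * l ^ 2) ≤ 1 * (L * l ^ 2) := mul_le_mul_of_nonneg_right h3 (by positivity)
    have h5 : l ^ 2 ≤ L := by
      have : l ^ 2 * 1 ≤ l ^ 2 * l := mul_le_mul_of_nonneg_left (by linarith) (by positivity)
      have h55 : l ^ 3 = l ^ 2 * l := by ring
      have : 0 ≤ l ^ 3 := by positivity
      linarith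
    have h6 : L * l ^ 2 ≤ L * L := mul_le_mul_of_nonneg_left h5 hL0.le
    have h7 : L ^ 2 = L * L := by ring
    linarith
  · -- the number of survivors
    have hZ3 : 3 ≤ Z := by rw [hZ]; exact le_max_right _ _
    have hlogZ : Real.log (Z : ℝ) ≤ 3 * m := by
      have h2 : (Z : ℝ) ≤ l ^ 3 := by
        rw [hZ, Nat.cast_max]
        apply max_le
        · refine (Nat.floor_le (by positivity)).trans ?_
          rw [div_le_iff₀ hy0]
          refine hBle.trans ?_
          calc 2 * N * c * G ≤ 2 * N * c * (L * l ^ 2) := by gcongr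
            _ = (N * c * 400) * l ^ 2 * (L / 100) / 2 := by ring
            _ ≤ l * l ^ 2 * (L / 100) / 2 := by gcongr
            _ = (l ^ 3 * (L / 100)) / 2 := by ring
            _ ≤ l ^ 3 * y := by
              rw [hy]
              have : 0 ≤ l ^ 3 * (L / 100) := by positivity
              linarith
        · push_cast
          have h33 : (16 : ℝ) ^ 3 ≤ l ^ 3 := pow_le_pow_left₀ (by norm_num) x3 3
          linarith
      have h3 := Real.log_le_log (by exact_mod_cast (by omega : 0 < Z)) h2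
      rw [Real.log_pow, ← hm] at h3
      push_cast at h3
      exact h3
    have hlogZ0 : 0 ≤ Real.log (Z : ℝ) := Real.log_natCast_nonneg Z
    have f1 : (Real.log (Z : ℝ)) ^ δ ≤ 3 * m ^ δ := by
      calc (Real.log (Z : ℝ)) ^ δ ≤ (3 * m) ^ δ := Real.rpow_le_rpow hlogZ0 hlogZ h0
        _ = 3 ^ δ * m ^ δ := Real.mul_rpow (by norm_num) hm0.le
        _ ≤ 3 ^ (1 : ℝ) * m ^ δ := by
          gcongr
          norm_num
        _ = 3 * m ^ δ := by rw [Real.rpow_one]
    have f2 : l ^ δ / 2 ≤ (Real.log (⌊y⌋₊ : ℝ)) ^ δ := by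
      calc l ^ δ / 2 = l ^ δ / 2 ^ (1 : ℝ) := by rw [Real.rpow_one]
        _ ≤ l ^ δ / 2 ^ δ := by
          gcongr
          norm_num
        _ = (l / 2) ^ δ := by rw [Real.div_rpow hl0.le (by norm_num)]
        _ ≤ _ := Real.rpow_le_rpow (by positivity) hlogf h0
    have hlδ0 : 0 < l ^ δ := by positivity
    have f3 : C * (B / Real.log y) ≤ C * (2 * N * c * G / (l / 2)) := by
      gcongr
    have f4 : G = L * (l * l ^ δ) / m ^ δ := by
      rw [hG, Real.rpow_add hl0, Real.rpow_one]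
    calc C * (B / Real.log y) * (Real.log (Z : ℝ)) ^ δ / (Real.log (⌊y⌋₊ : ℝ)) ^ δ
        ≤ C * (2 * N * c * G / (l / 2)) * (3 * m ^ δ) / (l ^ δ / 2) := by
          gcongr
      _ = c * (24 * C * N) * L := by
          rw [f4]
          have : m ^ δ ≠ 0 := by positivity
          field_simp
          ring
      _ ≤ c₁ * L := by
          apply mul_le_mul_of_nonneg_right _ hL0.le
          have : c * (24 * C * N) ≤ c * (48 * C * N) := by
            apply mul_le_mul_of_nonneg_left _ hc.le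
            have : 0 < C * N := by positivity
            linarith
          linarith
  · have h2 : X ^ (1 / 10 : ℝ) = Real.exp (1 / 10 * L) := by
      rw [Real.rpow_def_of_pos hX0, ← hL, mul_comm]
    have := Real.add_one_le_exp (1 / 10 * L)
    rw [h2, hy]
    linarith
  · have h2 : X = X ^ (1 / 10 : ℝ) * X ^ (9 / 10 : ℝ) := by
      rw [← Real.rpow_add hX0]
      norm_num
    have h3 : 0 ≤ X ^ (1 / 10 : ℝ) := by positivity
    have h4 : X ^ (1 / 10 : ℝ) * 100 ≤ X ^ (1 / 10 : ℝ) * X ^ (9 / 10 : ℝ) :=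
      mul_le_mul_of_nonneg_left x9 h3
    rw [← h2] at h4
    linarith
  · exact Nat.le_floor (by push_cast; linarith)

end Pool.Agent.L7h34.NG
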