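import Pool.Agent.L7h34.NG.Mert
import Pool.Agent.H398R2.RK.Surv

set_option autoImplicit false

/-! # The integers of a residue class without small prime factors outside `G` -/

namespace Pool.Agent.L7h34.NG

open Finset Filter

open scoped Classical in
/-- the `j` such that `N j + a` has no prime factor outside `G` up to `y` -/
noncomputable def Sv (N a : ℕ) (G : ℕ → Prop) (y : ℝ) (T : ℕ) : Finset ℕ :=
  (Icc 1 T).filter (fun j => ∀ p : ℕ, p.Prime → (p : ℝ) ≤ y → ¬ G p → ¬ p ∣ N * j + a)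

theorem mem_Sv {N a : ℕ} {G : ℕ → Prop} {y : ℝ} {T j : ℕ} : j ∈ Sv N a G y T ↔
    (1 ≤ j ∧ j ≤ T) ∧ ∀ p : ℕ, p.Prime → (p : ℝ) ≤ y → ¬ G p → ¬ p ∣ N * j + a := by
  classical
  unfold Sv
  rw [mem_filter, mem_Icc]

theorem count {N a : ℕ} {G : ℕ → Prop} {δ : ℝ} (hN : 1 ≤ N) (ha : 1 ≤ a) (hM : Mert G δ)
    (hit : ∀ u : ℕ, 1 ≤ u → u ≡ a [MOD N] → ∃ p : ℕ, p.Prime ∧ p ∣ u ∧ ¬ G p) :
    ∃ C : ℝ, 0 < C ∧ ∀ y : ℝ, 3 ≤ y → ∀ T B : ℕ, B = N * T + a → (B : ℝ) ≤ y ^ 2 →
      ((Sv N a G y T).card : ℝ) ≤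
        C * (B / Real.log y) * (Real.log ((max ⌊(B : ℝ) / y⌋₊ 3 : ℕ) : ℝ)) ^ δ := by
  classical
  obtain ⟨C, hC, hP⟩ := GP_inv hM
  refine ⟨10 * C, by positivity, fun y hy T B hB hBy => ?_⟩
  have hy0 : 0 < y := by linarith
  have hly : 0 < Real.log y := Real.log_pos (by linarith)
  obtain ⟨Z, hZ⟩ : ∃ Z, Z = max ⌊(B : ℝ) / y⌋₊ 3 := ⟨_, rfl⟩
  have hZ3 : 3 ≤ Z := by rw [hZ]; exact le_max_right _ _
  rw [← hZ]
  obtain ⟨M, hMd⟩ : ∃ M, M = (Icc 1 ⌊(B : ℝ) / y⌋₊).filter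
    (fun m => ∀ p : ℕ, p.Prime → p ∣ m → G p) := ⟨_, rfl⟩
  obtain ⟨PP, hPP⟩ : ∃ PP : ℕ → Finset ℕ, PP = fun m => ((Icc 1 (B / m)).filter Nat.Prime).filter
    (fun q : ℕ => y < (q : ℝ)) := ⟨_, rfl⟩
  have hMsum : ∑ m ∈ M, (1 : ℝ) / m ≤ C * (Real.log Z) ^ δ := by
    refine (sum_factored (GP G Z) M (fun p hp => (mem_GP.1 hp).1.1) (fun m hm => ?_)).trans
      (hP Z hZ3)
    rw [hMd, mem_filter, mem_Icc] at hm
    refine ⟨by omega, fun p hp hd => ?_⟩
    rw [mem_GP]
    refine ⟨⟨hp, hm.2 p hp hd⟩, ?_⟩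
    have h1 := Nat.le_of_dvd (by omega) hd
    have h2 : ⌊(B : ℝ) / y⌋₊ ≤ Z := by rw [hZ]; exact le_max_left _ _
    omega
  have hPPc : ∀ m ∈ M, ((PP m).card : ℝ) ≤ 10 * (B / m) / Real.log y := by
    intro m hm
    have hm1 : 1 ≤ m := by
      rw [hMd, mem_filter, mem_Icc] at hm
      exact hm.1.1
    have hmR : (0 : ℝ) < m := by exact_mod_cast hm1
    rcases (PP m).eq_empty_or_nonempty with h | ⟨q, hq⟩
    · rw [h, card_empty]
      push_cast
      positivity
    · rw [hPP] at hq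
      dsimp only at hq
      rw [mem_filter, mem_filter, mem_Icc] at hq
      have hq1 : (q : ℝ) ≤ ((B / m : ℕ) : ℝ) := by exact_mod_cast hq.1.1.2
      have hTm : y < ((B / m : ℕ) : ℝ) := lt_of_lt_of_le hq.2 hq1
      have h2 : 2 ≤ B / m := by
        have : (2 : ℝ) ≤ ((B / m : ℕ) : ℝ) := by linarith
        exact_mod_cast this
      have h3 := Pool.Agent.H398R2.RK.primes_le (B / m) h2
      have h4 : ((PP m).card : ℝ) ≤ (((Icc 1 (B / m)).filter Nat.Prime).card : ℝ) := by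
        rw [hPP]
        exact_mod_cast card_filter_le _ _
      have h5 : ((B / m : ℕ) : ℝ) ≤ (B : ℝ) / m := Nat.cast_div_le
      have h6 : Real.log y ≤ Real.log ((B / m : ℕ) : ℝ) := Real.log_le_log (by linarith) hTm.le
      refine h4.trans (h3.trans ?_)
      apply div_le_div₀ (by positivity) (by linarith) hly h6
  have hsub : (Sv N a G y T).image (fun j => N * j + a) ⊆
      M.biUnion (fun m => (PP m).image (fun q => m * q)) := by
    intro u hu
    obtain ⟨j, hj, rfl⟩ := mem_image.1 hu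
    rw [mem_Sv] at hj
    have hu1 : 1 ≤ N * j + a := by omega
    have huB : N * j + a ≤ B := by
      rw [hB]
      have := Nat.mul_le_mul_left N hj.1.2
      omega
    have hcong : N * j + a ≡ a [MOD N] := by
      unfold Nat.ModEq
      rw [Nat.mul_add_mod]
    obtain ⟨q, hq, ⟨m, hm⟩, hqG⟩ := hit _ hu1 hcong
    have hqy : y < q := by
      by_contra hcon
      push Not at hcon
      exact hj.2 q hq hcon hqG ⟨m, hm⟩
    have hm0 : 0 < m := by
      rcases Nat.eq_zero_or_pos m with h | h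
      · rw [h] at hm; omega
      · exact h
    have hmR : (0 : ℝ) < m := by exact_mod_cast hm0
    have huBR : (q : ℝ) * m ≤ B := by
      rw [hm] at huB
      exact_mod_cast huB
    have hmB : (m : ℝ) ≤ B / y := by
      rw [le_div_iff₀ hy0]
      have : y * m ≤ q * m := mul_le_mul_of_nonneg_right hqy.le hmR.le
      linarith
    rw [mem_biUnion]
    refine ⟨m, ?_, ?_⟩
    · rw [hMd, mem_filter, mem_Icc]
      refine ⟨⟨hm0, Nat.le_floor hmB⟩, fun p hp hd => ?_⟩
      by_contra hG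
      refine hj.2 p hp ?_ hG (by rw [hm]; exact hd.mul_left q)
      have h1 : (p : ℝ) ≤ m := by exact_mod_cast Nat.le_of_dvd hm0 hd
      have h2 : (B : ℝ) / y ≤ y := by
        rw [div_le_iff₀ hy0]
        nlinarith
      linarith
    · rw [mem_image]
      refine ⟨q, ?_, ?_⟩
      · rw [hPP]
        dsimp only
        rw [mem_filter, mem_filter, mem_Icc]
        refine ⟨⟨⟨hq.pos, ?_⟩, hq⟩, hqy⟩
        rw [Nat.le_div_iff_mul_le hm0]
        exact_mod_cast huBR
      · rw [hm, mul_comm]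
  have hinj : Function.Injective (fun j => N * j + a) := by
    intro i j hij
    simp only at hij
    have : N * i = N * j := by omega
    exact Nat.eq_of_mul_eq_mul_left (by omega) this
  have hcard : (Sv N a G y T).card ≤ ∑ m ∈ M, (PP m).card := by
    rw [← card_image_of_injective _ hinj]
    refine (card_le_card hsub).trans (card_biUnion_le.trans ?_)
    exact sum_le_sum fun m _ => card_image_le
  calc ((Sv N a G y T).card : ℝ) ≤ ∑ m ∈ M, ((PP m).card : ℝ) := by exact_mod_cast hcard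
    _ ≤ ∑ m ∈ M, 10 * (B / m) / Real.log y := sum_le_sum hPPc
    _ = 10 * (B / Real.log y) * ∑ m ∈ M, (1 : ℝ) / m := by
        rw [mul_sum]
        apply sum_congr rfl
        intro m _
        ring
    _ ≤ 10 * (B / Real.log y) * (C * (Real.log Z) ^ δ) :=
        mul_le_mul_of_nonneg_left hMsum (by positivity)
    _ = _ := by ring

end Pool.Agent.L7h34.NG
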