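import Pool.Agent.L7h34.NG.Main
import Pool.Agent.Y669.Mer

set_option autoImplicit false

/-! # Residue classes and subgroups -/

namespace Pool.Agent.L7h34.NG

open Finset Filter

/-- Mertens' theorem for the primes of a set of reduced residue classes -/
theorem mert_res (N : ℕ) [NeZero N] (R : Finset (ZMod N)) (hR : ∀ a ∈ R, IsUnit a) :
    Mert (fun p => (p : ZMod N) ∈ R) ((R.card : ℝ) / Nat.totient N) := by
  classical
  obtain ⟨x0, hx0⟩ := Pool.Agent.H387R2.Uni.siegel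
  have hN1 : 1 ≤ N := Nat.one_le_iff_ne_zero.2 (NeZero.ne N)
  have hlogx : Tendsto (fun x : ℕ => Real.log (x:ℝ)) atTop atTop :=
    Real.tendsto_log_atTop.comp tendsto_natCast_atTop_atTop
  obtain ⟨x1, hx1⟩ := eventually_atTop.1 (hlogx.eventually_ge_atTop (N : ℝ))
  have hφ : (0 : ℝ) < Nat.totient N := by exact_mod_cast Nat.totient_pos.2 hN1
  have key := Pool.Agent.Y669.mer_of (fun p : ℕ => (p : ZMod N) ∈ R) ((R.card : ℝ) / Nat.totient N)
    (R.card + 1) (by positivity) (max (max x0 x1) 3) (fun x hx => by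
    have hxx0 : x0 ≤ x := (le_max_left _ _).trans ((le_max_left _ _).trans hx)
    have hxx1 : x1 ≤ x := (le_max_right _ _).trans ((le_max_left _ _).trans hx)
    have hxx3 : 3 ≤ x := (le_max_right _ _).trans hx
    have hNx : (N : ℝ) ≤ Real.log x ^ 2 := by
      have h1 := hx1 x hxx1
      have h2 : (1 : ℝ) ≤ N := by exact_mod_cast hN1
      nlinarith
    have hpos : 0 ≤ (x : ℝ) / Real.log x ^ 6 := by positivity
    have e0 : (((Icc 1 x).filter (fun p : ℕ => p.Prime ∧ (p : ZMod N) ∈ R)).card : ℝ) =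
        ∑ a ∈ R, H343E.piAP x N a.val := by
      unfold H343E.piAP
      have hmaps : ∀ p ∈ (Icc 1 x).filter (fun p : ℕ => p.Prime ∧ (p : ZMod N) ∈ R),
          ((p : ℕ) : ZMod N) ∈ R := fun p hp => (mem_filter.1 hp).2.2
      rw [card_eq_sum_card_fiberwise hmaps]
      push_cast
      refine sum_congr rfl fun a ha => ?_
      congr 2
      ext p
      rw [mem_filter, mem_filter, mem_filter]
      have h1 : (p ≡ a.val [MOD N]) ↔ (p : ZMod N) = a := by
        rw [← ZMod.natCast_eq_natCast_iff, ZMod.natCast_zmod_val]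
      rw [h1]
      constructor
      · rintro ⟨⟨q1, q2, q3⟩, q4⟩
        exact ⟨q1, q2, q4⟩
      · rintro ⟨q1, q2, q3⟩
        exact ⟨⟨q1, q2, by rw [q3]; exact ha⟩, q3⟩
    have e1 : ((R.card : ℝ) / Nat.totient N) * H343E.pi1 x =
        ∑ _a ∈ R, H343E.pi1 x / (Nat.totient N : ℝ) := by
      rw [sum_const, nsmul_eq_mul]
      ring
    rw [e0, e1, ← sum_sub_distrib]
    refine (abs_sum_le_sum_abs _ _).trans ?_
    have h3 : ∀ a ∈ R, |H343E.piAP x N a.val - H343E.pi1 x / (Nat.totient N : ℝ)| ≤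
        x / Real.log x ^ 6 := by
      intro a ha
      refine hx0 x hxx0 N hN1 hNx a.val (ZMod.val_lt a) ?_
      have h4 := hR a ha
      rw [← ZMod.isUnit_iff_coprime, ZMod.natCast_zmod_val]
      exact h4
    refine (sum_le_sum h3).trans ?_
    rw [sum_const, nsmul_eq_mul, add_mul, one_mul]
    linarith)
  obtain ⟨C, hC, h⟩ := key
  refine ⟨C, hC, fun x hx F hF => ?_⟩
  have e : F = (Icc 1 x).filter (fun p : ℕ => p.Prime ∧ (p : ZMod N) ∈ R) := by
    ext p
    rw [hF, mem_filter, mem_Icc]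
    constructor
    · rintro ⟨⟨h1, h2⟩, h3⟩; exact ⟨⟨h1.one_lt.le, h3⟩, h1, h2⟩
    · rintro ⟨⟨h1, h3⟩, h2, h4⟩; exact ⟨⟨h2, h4⟩, h3⟩
  rw [e]
  exact h x hx

/-- an integer in a class outside a subgroup has a prime power factor outside the subgroup -/
theorem exists_out (N : ℕ) (H : Subgroup (ZMod N)ˣ) (u : ℕ) (hu : u ≠ 0)
    (h : ∀ p : ℕ, p.Prime → p ∣ u → ∀ w : (ZMod N)ˣ, (w : ZMod N) = p → w ^ (u.factorization p) ∈ H) :
    ∀ w : (ZMod N)ˣ, (w : ZMod N) = u → w ∈ H := by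
  induction u using Nat.recOnPosPrimePosCoprime with
  | prime_pow p n hp hn =>
    intro w hw
    have hunit : IsUnit ((p : ℕ) : ZMod N) := by
      rw [Nat.cast_pow] at hw
      have : IsUnit (((p : ℕ) : ZMod N) ^ n) := ⟨w, hw⟩
      exact (isUnit_pow_iff (by omega)).1 this
    obtain ⟨v, hv⟩ := hunit
    have h1 := h p hp (dvd_pow_self p (by omega)) v hv
    rw [hp.factorization_pow, Finsupp.single_eq_same] at h1
    have : w = v ^ n := by
      ext
      rw [hw, Units.val_pow_eq_pow_val, hv]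
      push_cast
      rfl
    rw [this]
    exact h1
  | zero => exact absurd rfl hu
  | one =>
    intro w hw
    have : w = 1 := by
      ext
      rw [hw]
      simp
    rw [this]
    exact H.one_mem
  | coprime a b ha hb hab iha ihb =>
    intro w hw
    have ha0 : a ≠ 0 := by omega
    have hb0 : b ≠ 0 := by omega
    rw [Nat.cast_mul] at hw
    have hunit : IsUnit (((a : ℕ) : ZMod N) * ((b : ℕ) : ZMod N)) := ⟨w, hw⟩
    rw [IsUnit.mul_iff] at hunit
    obtain ⟨⟨x, hx⟩, ⟨z, hz⟩⟩ := hunit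
    have h1 := iha ha0 (fun p hp hd w hw => by
      have h2 := h p hp (hd.mul_right b) w hw
      have h3 : b.factorization p = 0 := by
        apply Nat.factorization_eq_zero_of_not_dvd
        intro hpb
        exact hp.one_lt.ne' (Nat.dvd_one.1 (hab ▸ Nat.dvd_gcd hd hpb))
      rwa [Nat.factorization_mul ha0 hb0, Finsupp.add_apply, h3, add_zero] at h2) x hx
    have h2 := ihb hb0 (fun p hp hd w hw => by
      have h2 := h p hp (hd.mul_left a) w hw
      have h3 : a.factorization p = 0 := by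
        apply Nat.factorization_eq_zero_of_not_dvd
        intro hpb
        exact hp.one_lt.ne' (Nat.dvd_one.1 (hab ▸ Nat.dvd_gcd hpb hd))
      rwa [Nat.factorization_mul ha0 hb0, Finsupp.add_apply, h3, zero_add] at h2) z hz
    have : w = x * z := by
      ext
      rw [hw, Units.val_mul, hx, hz]
    rw [this]
    exact H.mul_mem h1 h2

/-- **Long prime-free intervals whose initial segments contain no norms.** -/
theorem abel (N : ℕ) [NeZero N] (S : Finset (Subgroup (ZMod N)ˣ)) (hS : S.Nonempty) (a : (ZMod N)ˣ)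
    (ha : ∀ H ∈ S, a ∉ H) : ∃ c : ℝ, 0 < c ∧ ∃ X₀ : ℝ, ∀ X : ℝ, X₀ ≤ X → ∀ M : ℕ, ∃ n : ℕ,
      M < n ∧ (n : ℝ) ≤ M + X ∧
      (∀ j : ℕ, 1 ≤ j → (j : ℝ) ≤ c * ll ((S.inf id).index : ℝ)⁻¹ X → ¬ (n + j).Prime) ∧
      ∀ j : ℕ, 1 ≤ j → (j : ℝ) ≤ c * Real.log X → ∀ H ∈ S, ∃ (p : ℕ) (u : (ZMod N)ˣ),
        p.Prime ∧ (u : ZMod N) = p ∧ u ^ ((n + j).factorization p) ∉ H := by
  classical
  have hN1 : 1 ≤ N := Nat.one_le_iff_ne_zero.2 (NeZero.ne N)
  obtain ⟨K, hK⟩ : ∃ K, K = S.inf id := ⟨_, rfl⟩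
  obtain ⟨R, hR⟩ : ∃ R : Finset (ZMod N), R = (univ.filter (fun u : (ZMod N)ˣ => u ∈ K)).image
    (fun u : (ZMod N)ˣ => (u : ZMod N)) := ⟨_, rfl⟩
  have hRmem : ∀ x : ZMod N, x ∈ R ↔ ∃ u : (ZMod N)ˣ, u ∈ K ∧ (u : ZMod N) = x := by
    intro x
    rw [hR, Finset.mem_image]
    constructor
    · rintro ⟨u, hu, rfl⟩; exact ⟨u, (mem_filter.1 hu).2, rfl⟩
    · rintro ⟨u, hu, rfl⟩; exact ⟨u, mem_filter.2 ⟨mem_univ _, hu⟩, rfl⟩
  have hRu : ∀ x ∈ R, IsUnit x := by
    intro x hx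
    obtain ⟨u, _, rfl⟩ := (hRmem x).1 hx
    exact u.isUnit
  have hcard : (R.card : ℝ) / Nat.totient N = ((K.index : ℝ))⁻¹ := by
    have h1 : R.card = Nat.card K := by
      rw [hR, card_image_of_injective _ Units.val_injective, Nat.card_eq_fintype_card, Fintype.card_subtype]
    have h2 : Nat.card K * K.index = Nat.totient N := by
      rw [K.card_mul_index, Nat.card_eq_fintype_card, ZMod.card_units_eq_totient]
    have h3 : (0 : ℝ) < Nat.totient N := by exact_mod_cast Nat.totient_pos.2 hN1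
    have h4 : (Nat.card K : ℝ) * K.index = Nat.totient N := by exact_mod_cast h2
    have h5 : (K.index : ℝ) ≠ 0 := by
      intro h
      rw [h, mul_zero] at h4
      exact h3.ne h4
    rw [h1, ← h4]
    have h6 : (Nat.card K : ℝ) ≠ 0 := by
      intro h
      rw [h, zero_mul] at h4
      exact h3.ne h4
    field_simp
  have hM := mert_res N R hRu
  rw [hcard] at hM
  have hi1 : (1 : ℝ) ≤ K.index := by
    have : K.index ≠ 0 := Subgroup.index_ne_zero_of_finite
    exact_mod_cast Nat.one_le_iff_ne_zero.2 this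
  obtain ⟨b, hb⟩ : ∃ b, b = (a : ZMod N).val + N := ⟨_, rfl⟩
  have hba : ((b : ℕ) : ZMod N) = a := by
    rw [hb]
    push_cast
    rw [ZMod.natCast_zmod_val, ZMod.natCast_self, add_zero]
  have hbcop : b.Coprime N := by
    rw [← ZMod.isUnit_iff_coprime, hba]
    exact a.isUnit
  have hout : ∀ u : ℕ, 1 ≤ u → u ≡ b [MOD N] → ∀ H ∈ S, ∃ (p : ℕ) (w : (ZMod N)ˣ), p.Prime ∧ p ∣ u ∧
      (w : ZMod N) = p ∧ w ^ (u.factorization p) ∉ H := by
    intro u hu hub H hH
    by_contra hcon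
    push Not at hcon
    have h1 := exists_out N H u (by omega) (fun p hp hd w hw => hcon p w hp hd hw) a (by
      rw [← hba]
      exact ((ZMod.natCast_eq_natCast_iff _ _ _).2 hub).symm)
    exact ha H hH h1
  have hKS : ∀ H ∈ S, K ≤ H := by
    intro H hH
    rw [hK]
    exact Finset.inf_le (f := id) hH
  have hnG : ∀ p : ℕ, ∀ w : (ZMod N)ˣ, ∀ H ∈ S, ∀ v : ℕ, (w : ZMod N) = p → w ^ v ∉ H →
      ¬ ((p : ZMod N) ∈ R) := by
    intro p w H hH v hw hwv hR'
    obtain ⟨u, hu, hup⟩ := (hRmem _).1 hR'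
    have : w = u := Units.ext (hw.trans hup.symm)
    rw [this] at hwv
    exact hwv (H.pow_mem (hKS H hH hu) v)
  obtain ⟨c, hc, X₀, h⟩ := main (N := N) (a := b) (G := fun p => (p : ZMod N) ∈ R) hN1 (by omega) hbcop hM
    (by positivity) (inv_le_one_of_one_le₀ hi1) (by
      intro u hu hub
      obtain ⟨H, hH⟩ := hS
      obtain ⟨p, w, hp, hd, hw, hwv⟩ := hout u hu hub H hH
      exact ⟨p, hp, hd, hnG p w H hH _ hw hwv⟩)
  refine ⟨c, hc, X₀, fun X hX M => ?_⟩
  obtain ⟨n, h1, h2, h3, h4, h5, h6⟩ := h X hX M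
  have hMn : M < n := by
    have : (M : ℝ) < n := by linarith
    exact_mod_cast this
  refine ⟨n, hMn, h2, fun j hj1 hj2 hpr => ?_, fun j hj1 hj2 H hH => ?_⟩
  · rw [← hK] at hj2
    obtain ⟨p, hp, hpX, hpd⟩ := h5 j hj1 hj2
    have h7 : p = n + j := (Nat.prime_dvd_prime_iff_eq hp hpr).1 hpd
    have h8 : (n : ℝ) ≤ p := by
      rw [h7]
      push_cast
      linarith [Nat.cast_nonneg (α := ℝ) j]
    have h9 : (0 : ℝ) ≤ M := Nat.cast_nonneg M
    linarith
  · have hcong : N * j + b ≡ b [MOD N] := by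
      unfold Nat.ModEq
      rw [Nat.mul_add_mod]
    obtain ⟨p, w, hp, hd, hw, hwv⟩ := hout (N * j + b) (by omega) hcong H hH
    refine ⟨p, w, hp, hw, ?_⟩
    rw [h6 j hj1 hj2 p hp (hnG p w H hH _ hw hwv) hd]
    exact hwv

end Pool.Agent.L7h34.NG
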