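import Pool.Agent.L7h34.NG.Pre
import Pool.Agent.L7h34.NG.Ana
import Pool.Agent.L7h34.DF.Eng
import Pool.Agent.L7h34.DF.Col

set_option autoImplicit false

/-! # Long prime-free intervals with a prescribed core -/

namespace Pool.Agent.L7h34.NG

open Finset Filter Polynomial
open Pool.Agent.H474R2.PG (PR Sg rho)
open Pool.Agent.L7h34.DF (gP gP_irreducible gP_natDegree rho_lin rho_gP_zero engine)

/-- the size of the modulus -/
theorem W_le (y : ℝ) (W B₂ : ℕ) (hy : 100 ≤ y) (hB₁ : 1 ≤ B₂) (hB : (B₂ : ℝ) ≤ y)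
    (hW : (W : ℝ) ≤ (4 : ℝ) ^ ⌊y⌋₊ * (B₂ : ℝ) ^ ((Icc 1 ⌊y⌋₊).filter Nat.Prime).card) :
    (W : ℝ) ≤ Real.exp (22 * y) := by
  have hy0 : 0 < y := by linarith
  obtain ⟨m, hm⟩ : ∃ m, m = ⌊y⌋₊ := ⟨_, rfl⟩
  rw [← hm] at hW
  have hmy : (m : ℝ) ≤ y := by rw [hm]; exact Nat.floor_le hy0.le
  have hym : y < m + 1 := by rw [hm]; exact Nat.lt_floor_add_one y
  have hm2 : (2 : ℝ) ≤ m := by linarith
  have hm2' : 2 ≤ m := by exact_mod_cast hm2
  have hlm : 0 < Real.log m := Real.log_pos (by linarith)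
  have h1 := Pool.Agent.H398R2.RK.primes_le m hm2'
  have hB0 : (0 : ℝ) < B₂ := by exact_mod_cast hB₁
  have hB1 : (1 : ℝ) ≤ B₂ := by exact_mod_cast hB₁
  have hlB : Real.log B₂ ≤ 2 * Real.log m := by
    have h2 : (B₂ : ℝ) ≤ (m : ℝ) ^ 2 := by nlinarith
    have h3 := Real.log_le_log hB0 h2
    rw [Real.log_pow] at h3
    exact_mod_cast h3
  have h4 : (B₂ : ℝ) ^ ((Icc 1 m).filter Nat.Prime).card =
      Real.exp (((Icc 1 m).filter Nat.Prime).card * Real.log B₂) := by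
    rw [mul_comm, Real.exp_mul, Real.exp_log hB0, Real.rpow_natCast]
  have h5 : (4 : ℝ) ^ m = Real.exp (m * Real.log 4) := by
    rw [mul_comm, Real.exp_mul, Real.exp_log (by norm_num), Real.rpow_natCast]
  rw [h4, h5, ← Real.exp_add] at hW
  refine hW.trans (Real.exp_le_exp.2 ?_)
  have h6 : Real.log 4 ≤ 2 := by
    have : (4 : ℝ) = 2 ^ 2 := by norm_num
    rw [this, Real.log_pow]
    have := Real.log_two_lt_d9
    push_cast
    linarith
  have h7 : (((Icc 1 m).filter Nat.Prime).card : ℝ) * Real.log B₂ ≤ 20 * m := by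
    have hl0 : 0 ≤ Real.log (B₂ : ℝ) := Real.log_nonneg hB1
    calc (((Icc 1 m).filter Nat.Prime).card : ℝ) * Real.log B₂
        ≤ (10 * m / Real.log m) * (2 * Real.log m) :=
          mul_le_mul h1 hlB hl0 (by positivity)
      _ = 20 * m := by field_simp; ring
  have h8 : (m : ℝ) * Real.log 4 ≤ m * 2 := mul_le_mul_of_nonneg_left h6 (by linarith)
  linarith

theorem main {N a : ℕ} {G : ℕ → Prop} {δ : ℝ} (hN : 1 ≤ N) (ha : 1 ≤ a) (cop : a.Coprime N)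
    (hM : Mert G δ) (h0 : 0 ≤ δ) (h1 : δ ≤ 1)
    (hit : ∀ u : ℕ, 1 ≤ u → u ≡ a [MOD N] → ∃ p : ℕ, p.Prime ∧ p ∣ u ∧ ¬ G p) :
    ∃ c : ℝ, 0 < c ∧ ∃ X₀ : ℝ, ∀ X : ℝ, X₀ ≤ X → ∀ M : ℕ, ∃ n : ℕ,
      (M : ℝ) + X / 2 < n ∧ (n : ℝ) ≤ M + X ∧ 100 ≤ X ∧ X ^ (1 / 10 : ℝ) ≤ X / 100 ∧
      (∀ j : ℕ, 1 ≤ j → (j : ℝ) ≤ c * ll δ X →
        ∃ p : ℕ, p.Prime ∧ (p : ℝ) ≤ X ^ (1 / 10 : ℝ) ∧ p ∣ n + j) ∧
      (∀ j : ℕ, 1 ≤ j → (j : ℝ) ≤ c * Real.log X → ∀ p : ℕ, p.Prime → ¬ G p → p ∣ N * j + a →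
        (n + j).factorization p = (N * j + a).factorization p) := by
  classical
  obtain ⟨C₁, hC₁, hcount⟩ := count hN ha hM hit
  obtain ⟨C₂, hC₂, hprod⟩ := GP_prod hM
  obtain ⟨c₁, hc₁, X₁, heng⟩ := engine (ι := Fin 1) (fun _ => gP 0) (fun _ => gP_irreducible 0)
    (fun _ => gP_natDegree 0) 2 le_rfl
  obtain ⟨c, hc, hev⟩ := ana N a hN δ h0 h1 (C₁ * C₂) c₁ (by positivity) hc₁
  obtain ⟨X₂, hX₂⟩ := eventually_atTop.1 hev
  refine ⟨c, hc, max X₁ X₂, fun X hX M => ?_⟩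
  have m1 : X₁ ≤ X := (le_max_left _ _).trans hX
  obtain ⟨y, hy⟩ : ∃ y, y = Real.log X / 100 := ⟨_, rfl⟩
  obtain ⟨T₁, hT₁⟩ : ∃ T, T = ⌊c * ll δ X⌋₊ := ⟨_, rfl⟩
  obtain ⟨T₂, hT₂⟩ : ∃ T, T = ⌊c * Real.log X⌋₊ := ⟨_, rfl⟩
  obtain ⟨B, hB⟩ : ∃ B, B = N * T₁ + a := ⟨_, rfl⟩
  obtain ⟨Z, hZ⟩ : ∃ Z, Z = max ⌊(B : ℝ) / y⌋₊ 3 := ⟨_, rfl⟩
  obtain ⟨⟨a1, a2, a3, a4⟩, a5, a6, a7, a8, a9, a10⟩ :=
    hX₂ X ((le_max_right _ _).trans hX) y hy T₁ T₂ B Z hT₁ hT₂ hB hZ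
  obtain ⟨B₂, hB₂⟩ : ∃ B₂, B₂ = N * T₂ + a := ⟨_, rfl⟩
  rw [← hB₂] at a3
  have hB₂1 : 1 ≤ B₂ := by omega
  obtain ⟨L, hL⟩ : ∃ L, L = Real.log X := ⟨_, rfl⟩
  rw [← hL] at a4 a5 a6 hy
  have hX0 : 0 < X := by linarith
  have hy0 : 0 < y := by linarith
  have hyfl : (⌊y⌋₊ : ℝ) ≤ y := Nat.floor_le hy0.le
  obtain ⟨W, n₀, R', hR'R, hW1, hWle, hWp, hR'c, hcl⟩ :=
    presieve N a G (Sv N a G y T₁) ⌊y⌋₊ B₂ hB₂1
  have hWR : (1 : ℝ) ≤ W := by exact_mod_cast hW1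
  have hRc : (R'.card : ℝ) ≤ c₁ * L := by
    refine (hR'c.trans ?_).trans a5
    have h2 := hcount y a1 T₁ B hB a2
    rw [← hZ] at h2
    have h3 := hprod ⌊y⌋₊ a10
    have h4 : 0 ≤ ∏ p ∈ GP G ⌊y⌋₊, (1 - (1 : ℝ) / p) := by
      apply prod_nonneg
      intro p hp
      have : (2 : ℝ) ≤ p := by exact_mod_cast (mem_GP.1 hp).1.1.two_le
      rw [sub_nonneg, div_le_one (by linarith)]
      linarith
    have hly : 0 < Real.log y := Real.log_pos (by linarith)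
    calc ((Sv N a G y T₁).card : ℝ) * ∏ p ∈ GP G ⌊y⌋₊, (1 - (1 : ℝ) / p)
        ≤ (C₁ * (B / Real.log y) * (Real.log (Z : ℝ)) ^ δ) * (C₂ / (Real.log (⌊y⌋₊ : ℝ)) ^ δ) :=
          mul_le_mul h2 h3 h4 (by
            have : 0 ≤ Real.log (Z : ℝ) := Real.log_natCast_nonneg Z
            positivity)
      _ = _ := by ring
  -- the interval
  obtain ⟨M₁, hM₁⟩ : ∃ M₁ : ℤ, M₁ = M + ⌈X / 2⌉ := ⟨_, rfl⟩
  obtain ⟨M₂, hM₂⟩ : ∃ M₂ : ℤ, M₂ = M + ⌊X⌋ := ⟨_, rfl⟩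
  have g1 : (⌈X / 2⌉ : ℝ) < X / 2 + 1 := Int.ceil_lt_add_one _
  have g2 : X / 2 ≤ (⌈X / 2⌉ : ℝ) := Int.le_ceil _
  have g3 : (⌊X⌋ : ℝ) ≤ X := Int.floor_le _
  have g4 : X - 1 < (⌊X⌋ : ℝ) := Int.sub_one_lt_floor _
  have hM₁r : (M₁ : ℝ) = M + (⌈X / 2⌉ : ℝ) := by rw [hM₁]; push_cast; rfl
  have hM₂r : (M₂ : ℝ) = M + (⌊X⌋ : ℝ) := by rw [hM₂]; push_cast; rfl
  have hlen : X / 2 - 2 ≤ (M₂ : ℝ) - M₁ := by rw [hM₁r, hM₂r]; linarith
  have hM12 : M₁ ≤ M₂ := by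
    have : (M₁ : ℝ) ≤ M₂ := by linarith
    exact_mod_cast this
  have hWX : X ^ (1 / 2 : ℝ) * W ≤ (M₂ : ℝ) - M₁ := by
    have h2 : (W : ℝ) ≤ Real.exp (22 * y) := W_le y W B₂ (by linarith) hB₂1 a3 hWle
    have hXr : X ^ (1 / 2 : ℝ) = Real.exp (1 / 2 * L) := by
      rw [Real.rpow_def_of_pos hX0, ← hL, mul_comm]
    have hXe : X = Real.exp L := by rw [hL, Real.exp_log hX0]
    have h3 : X ^ (1 / 2 : ℝ) * W ≤ Real.exp (1 / 2 * L) * Real.exp (22 * y) := by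
      rw [hXr]
      exact mul_le_mul_of_nonneg_left h2 (Real.exp_pos _).le
    have h4 : Real.exp (1 / 2 * L) * Real.exp (22 * y) * 4 ≤ X := by
      have h5 : (4 : ℝ) ≤ Real.exp (28 / 100 * L) := by
        have := Real.add_one_le_exp (28 / 100 * L)
        linarith
      calc Real.exp (1 / 2 * L) * Real.exp (22 * y) * 4
          ≤ Real.exp (1 / 2 * L) * Real.exp (22 * y) * Real.exp (28 / 100 * L) :=
            mul_le_mul_of_nonneg_left h5 (by positivity)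
        _ = X := by
            rw [← Real.exp_add, ← Real.exp_add, hXe, hy]
            congr 1
            ring
    linarith
  have hyL : y < L ^ 2 := by
    rw [hy]
    nlinarith
  have key : ∃ b : ℤ, M₁ < b ∧ b ≤ M₂ ∧ (W : ℤ) ∣ b - n₀ ∧
      ∀ k ∈ R', ∃ p : ℕ, p.Prime ∧ (p : ℝ) ≤ X ^ (1 / 10 : ℝ) ∧ (p : ℤ) ∣ b + k := by
    rcases R'.eq_empty_or_nonempty with h | h
    · have h1 := Pool.Agent.H256R2.SC.count_ap M₁ M₂ hM12 W hW1 (n₀ : ℤ)
      have h2 : (1 : ℝ) < ((M₂ : ℝ) - M₁) / W := by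
        rw [lt_div_iff₀ (by linarith), one_mul]
        refine lt_of_lt_of_le ?_ hWX
        have : (1 : ℝ) < X ^ (1 / 2 : ℝ) := Real.one_lt_rpow (by linarith) (by norm_num)
        nlinarith
      have h3 := (abs_le.1 h1).1
      have h4 : 0 < ((Finset.Ioc M₁ M₂).filter (fun x => (W : ℤ) ∣ x - (n₀ : ℤ))).card := by
        have : (0 : ℝ) < (((Finset.Ioc M₁ M₂).filter (fun x => (W : ℤ) ∣ x - (n₀ : ℤ))).card : ℝ) := by
          linarith
        exact_mod_cast this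
      obtain ⟨b, hb⟩ := card_pos.1 h4
      rw [mem_filter, mem_Ioc] at hb
      refine ⟨b, hb.1.1, hb.1.2, hb.2, fun k hk => ?_⟩
      rw [h] at hk
      exact absurd hk (notMem_empty k)
    · have : Nonempty (↥R') := h.to_subtype
      have hle : ∀ k : ↥R', k.1 ≤ T₁ := fun k => (mem_Sv.1 (hR'R k.2)).1.2
      obtain ⟨b, hb1, hb2, hb3, hb4⟩ := heng X m1 (↥R') (fun _ => 0) (fun k => Polynomial.X + Polynomial.C (k.1 : ℤ))
        (by rw [Fintype.card_coe, ← hL]; exact hRc)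
        (fun k p hp _ => by rw [rho_lin p hp, rho_gP_zero p hp])
        (by
          intro p hp hpL b k l h1 h2
          rw [← hL] at hpL
          simp only [eval_add, eval_X, eval_C] at h1 h2
          have h3 : (p : ℤ) ∣ (k.1 : ℤ) - l.1 := by
            have := dvd_sub h1 h2
            rwa [add_sub_add_left_eq_sub] at this
          have h4 : (T₁ : ℝ) < p := by linarith
          have h5 : T₁ < p := by exact_mod_cast h4
          have h6 : |(k.1 : ℤ) - l.1| < p := by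
            rw [abs_lt]
            have := hle k
            have := hle l
            constructor <;> omega
          have h7 := Int.eq_zero_of_abs_lt_dvd h3 h6
          exact Subtype.ext (by omega))
        M₁ M₂ hM12 W hW1
        (by
          intro p hp hpL hd
          rw [← hL] at hpL
          have h1 : (p : ℝ) ≤ (⌊y⌋₊ : ℝ) := by exact_mod_cast hWp p hp hd
          linarith)
        hWX (n₀ : ℤ)
      refine ⟨b, hb1, hb2, hb3, fun k hk => ?_⟩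
      obtain ⟨p, hp, hpX, hpd⟩ := hb4 ⟨k, hk⟩
      simp only [eval_add, eval_X, eval_C] at hpd
      exact ⟨p, hp, hpX, hpd⟩
  obtain ⟨b, hb1, hb2, hb3, hb4⟩ := key
  have hbM : (M : ℝ) + X / 2 < b := by
    have : (M₁ : ℝ) < b := by exact_mod_cast hb1
    linarith
  have hb0 : 0 ≤ b := by
    have h1 : (0 : ℝ) ≤ (M : ℝ) := Nat.cast_nonneg M
    have : (0 : ℝ) < b := by linarith
    exact_mod_cast this.le
  obtain ⟨n, rfl⟩ := Int.eq_ofNat_of_zero_le hb0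
  have hn1 : n ≡ n₀ [MOD W] := by
    have h1 : (n₀ : ℤ) ≡ n [ZMOD W] := (Int.modEq_iff_dvd).2 hb3
    exact ((Int.natCast_modEq_iff).1 h1).symm
  obtain ⟨hc1, hc2⟩ := hcl n hn1
  refine ⟨n, by exact_mod_cast hbM, ?_, a7, a9, fun j hj1 hj2 => ?_, fun j hj1 hj2 p hp hG hd => ?_⟩
  · have : ((n : ℤ) : ℝ) ≤ M₂ := by exact_mod_cast hb2
    rw [hM₂r] at this
    push_cast at this
    linarith
  · have hjT : j ≤ T₁ := by rw [hT₁]; exact Nat.le_floor hj2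
    by_cases hjS : j ∈ Sv N a G y T₁
    · by_cases hjR : j ∈ R'
      · obtain ⟨p, hp, hpX, hpd⟩ := hb4 j hjR
        exact ⟨p, hp, hpX, by exact_mod_cast hpd⟩
      · obtain ⟨p, hp, hpy, hpd⟩ := hc2 j hjS hjR
        refine ⟨p, hp, ?_, hpd⟩
        have : (p : ℝ) ≤ (⌊y⌋₊ : ℝ) := by exact_mod_cast hpy
        linarith
    · rw [mem_Sv, not_and] at hjS
      have h2 := hjS ⟨hj1, hjT⟩
      push Not at h2
      obtain ⟨p, hp, hpy, hG, hd⟩ := h2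
      have hpN : ¬ p ∣ N := by
        intro h
        have h3 : p ∣ a := (Nat.dvd_add_right (h.mul_right j)).1 hd
        exact hp.one_lt.ne' (Nat.dvd_one.1 (cop ▸ Nat.dvd_gcd h3 h))
      have h3 := hc1 p hp hG hpN (Nat.le_floor hpy)
      have h4 : N * n ≡ a [MOD p] := h3.of_dvd (dvd_pow_self p (by omega))
      refine ⟨p, hp, by linarith, ?_⟩
      have h5 : N * (n + j) ≡ N * j + a [MOD p] := by
        have := Nat.ModEq.add_right (N * j) h4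
        rw [mul_add, add_comm (N * j) a]
        exact this
      have h6 : p ∣ N * (n + j) := (h5.dvd_iff dvd_rfl).2 hd
      exact (hp.dvd_mul.1 h6).resolve_left hpN
  · have hjT : j ≤ T₂ := by rw [hT₂]; exact Nat.le_floor hj2
    have hpN : ¬ p ∣ N := by
      intro h
      have h3 : p ∣ a := (Nat.dvd_add_right (h.mul_right j)).1 hd
      exact hp.one_lt.ne' (Nat.dvd_one.1 (cop ▸ Nat.dvd_gcd h3 h))
    have huB : N * j + a ≤ B₂ := by
      rw [hB₂]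
      have := Nat.mul_le_mul_left N hjT
      omega
    have hpB : p ≤ B₂ := (Nat.le_of_dvd (by omega) hd).trans huB
    have hpy : p ≤ ⌊y⌋₊ := by
      apply Nat.le_floor
      have : (p : ℝ) ≤ B₂ := by exact_mod_cast hpB
      linarith
    have h3 := hc1 p hp hG hpN hpy
    obtain ⟨e, he⟩ : ∃ e, e = Nat.log p B₂ + 1 := ⟨_, rfl⟩
    rw [← he] at h3
    have hlt : B₂ < p ^ e := by rw [he]; exact Nat.lt_pow_succ_log_self hp.one_lt B₂
    have h5 : N * (n + j) ≡ N * j + a [MOD p ^ e] := by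
      have := Nat.ModEq.add_right (N * j) h3
      rw [mul_add, add_comm (N * j) a]
      exact this
    have hu0 : N * j + a ≠ 0 := by omega
    have hn0 : n + j ≠ 0 := by omega
    have hequiv : ∀ k, k ≤ e → (p ^ k ∣ n + j ↔ p ^ k ∣ N * j + a) := by
      intro k hk
      have h6 : N * (n + j) ≡ N * j + a [MOD p ^ k] := h5.of_dvd (pow_dvd_pow p hk)
      rw [← h6.dvd_iff dvd_rfl]
      constructor
      · intro h; exact h.mul_left N
      · intro h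
        exact (Nat.Coprime.dvd_of_dvd_mul_left
          (Nat.Coprime.pow_left k ((Nat.Prime.coprime_iff_not_dvd hp).2 hpN)) h)
    obtain ⟨v, hv⟩ : ∃ v, v = (N * j + a).factorization p := ⟨_, rfl⟩
    have hve : v < e := by
      by_contra hcon
      push Not at hcon
      have h6 : p ^ e ∣ N * j + a := (hp.pow_dvd_iff_le_factorization hu0).2 (by rw [← hv]; exact hcon)
      have := Nat.le_of_dvd (by omega) h6
      omega
    have h7 : p ^ v ∣ n + j := (hequiv v hve.le).2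
      ((hp.pow_dvd_iff_le_factorization hu0).2 (le_of_eq hv))
    have h8 : ¬ p ^ (v + 1) ∣ n + j := by
      rw [hequiv (v + 1) hve, hp.pow_dvd_iff_le_factorization hu0]
      omega
    rw [hp.pow_dvd_iff_le_factorization hn0] at h7 h8
    rw [← hv]
    omega

end Pool.Agent.L7h34.NG
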