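import Mathlib

set_option autoImplicit false

/-! # Products over the primes of a set with a Mertens theorem -/

namespace Pool.Agent.L7h34.NG

open Finset Filter

/-- Mertens' theorem for the primes of a set `G` of relative density `δ` -/
def Mert (G : ℕ → Prop) (δ : ℝ) : Prop :=
  ∃ C : ℝ, 0 ≤ C ∧ ∀ x : ℕ, 3 ≤ x → ∀ F : Finset ℕ, (∀ p, p ∈ F ↔ (p.Prime ∧ G p) ∧ p ≤ x) →
    |∑ p ∈ F, (1 : ℝ) / p - δ * Real.log (Real.log x)| ≤ C

open scoped Classical in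
/-- the primes of `G` up to `x` -/
noncomputable def GP (G : ℕ → Prop) (x : ℕ) : Finset ℕ := (Icc 1 x).filter (fun p => p.Prime ∧ G p)

theorem mem_GP {G : ℕ → Prop} {x p : ℕ} : p ∈ GP G x ↔ (p.Prime ∧ G p) ∧ p ≤ x := by
  classical
  unfold GP
  rw [mem_filter, mem_Icc]
  constructor
  · rintro ⟨⟨_, h⟩, h2⟩; exact ⟨h2, h⟩
  · rintro ⟨h2, h⟩; exact ⟨⟨h2.1.one_lt.le, h⟩, h2⟩

/-- sum of the inverse squares of the integers `≥ 2` of a finite set -/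
theorem sum_sq_le (F : Finset ℕ) (hF : ∀ p ∈ F, 2 ≤ p) : ∑ p ∈ F, (1 : ℝ) / (p : ℝ) ^ 2 ≤ 1 := by
  have key : ∀ n : ℕ, ∑ k ∈ Ico 2 (n + 2), (1 : ℝ) / (k : ℝ) ^ 2 ≤ 1 - 1 / ((n : ℝ) + 1) := by
    intro n
    induction n with
    | zero => simp
    | succ n ih =>
      rw [show n + 1 + 2 = (n + 2) + 1 by ring, sum_Ico_succ_top (by omega)]
      have h1 : (1 : ℝ) / ((n + 2 : ℕ) : ℝ) ^ 2 ≤ 1 / ((n : ℝ) + 1) - 1 / (((n + 1 : ℕ) : ℝ) + 1) := by
        push_cast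
        rw [div_sub_div _ _ (by positivity) (by positivity), div_le_div_iff₀ (by positivity) (by positivity)]
        nlinarith [sq_nonneg (n : ℝ), Nat.cast_nonneg (α := ℝ) n]
      linarith
  obtain ⟨n, hn⟩ : ∃ n, n = F.sup id := ⟨_, rfl⟩
  calc ∑ p ∈ F, (1 : ℝ) / (p : ℝ) ^ 2 ≤ ∑ k ∈ Ico 2 (n + 2), (1 : ℝ) / (k : ℝ) ^ 2 := by
        apply sum_le_sum_of_subset_of_nonneg
        · intro p hp
          rw [mem_Ico]
          have h1 : p ≤ n := by rw [hn]; exact le_sup (f := id) hp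
          exact ⟨hF p hp, by omega⟩
        · intro _ _ _; positivity
    _ ≤ 1 - 1 / ((n : ℝ) + 1) := key n
    _ ≤ 1 := by
        have : 0 ≤ 1 / ((n : ℝ) + 1) := by positivity
        linarith

/-- upper bound for `∏ (1 - 1/p)⁻¹` -/
theorem prod_inv_le (F : Finset ℕ) (hF : ∀ p ∈ F, 2 ≤ p) :
    ∏ p ∈ F, (1 - (1 : ℝ) / p)⁻¹ ≤ Real.exp (∑ p ∈ F, (1 : ℝ) / p + 2) := by
  have h1 : ∏ p ∈ F, (1 - (1 : ℝ) / p)⁻¹ ≤ ∏ p ∈ F, Real.exp (1 / (p : ℝ) + 2 * (1 / (p : ℝ) ^ 2)) := by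
    apply Finset.prod_le_prod
    · intro p hp
      have h2 : (2 : ℝ) ≤ p := by exact_mod_cast hF p hp
      rw [inv_nonneg, sub_nonneg, div_le_one (by linarith)]
      linarith
    · intro p hp
      have h2 : (2 : ℝ) ≤ p := by exact_mod_cast hF p hp
      have h3 : (0 : ℝ) < p := by linarith
      have h4 := Real.add_one_le_exp (1 / (p : ℝ) + 2 * (1 / (p : ℝ) ^ 2))
      refine le_trans ?_ h4
      have h5 : (1 - (1 : ℝ) / p)⁻¹ = p / (p - 1) := by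
        field_simp
      rw [h5, div_le_iff₀ (by linarith)]
      have h6 : (1 / (p : ℝ) + 2 * (1 / (p : ℝ) ^ 2) + 1) * (p - 1) = p + (p - 2) / p ^ 2 := by
        field_simp
        ring
      rw [h6]
      have : 0 ≤ ((p : ℝ) - 2) / p ^ 2 := by
        apply div_nonneg (by linarith) (by positivity)
      linarith
  refine h1.trans ?_
  rw [← Real.exp_sum]
  apply Real.exp_le_exp.2
  rw [sum_add_distrib, ← mul_sum]
  have := sum_sq_le F hF
  linarith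

/-- upper bound for `∏ (1 - 1/p)` -/
theorem prod_le (F : Finset ℕ) (hF : ∀ p ∈ F, 2 ≤ p) :
    ∏ p ∈ F, (1 - (1 : ℝ) / p) ≤ Real.exp (-∑ p ∈ F, (1 : ℝ) / p) := by
  rw [← sum_neg_distrib, Real.exp_sum]
  apply Finset.prod_le_prod
  · intro p hp
    have h2 : (2 : ℝ) ≤ p := by exact_mod_cast hF p hp
    rw [sub_nonneg, div_le_one (by linarith)]
    linarith
  · intro p hp
    have := Real.add_one_le_exp (-(1 / (p : ℝ)))
    linarith

theorem rpow_log {δ x : ℝ} (hx : 1 < x) : Real.exp (δ * Real.log (Real.log x)) = (Real.log x) ^ δ := by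
  rw [Real.rpow_def_of_pos (Real.log_pos hx)]
  ring_nf

/-- the product over the primes of `G` -/
theorem GP_inv {G : ℕ → Prop} {δ : ℝ} (h : Mert G δ) : ∃ C : ℝ, 0 < C ∧ ∀ x : ℕ, 3 ≤ x →
    ∏ p ∈ GP G x, (1 - (1 : ℝ) / p)⁻¹ ≤ C * (Real.log x) ^ δ := by
  obtain ⟨C, hC, h⟩ := h
  refine ⟨Real.exp (C + 2), Real.exp_pos _, fun x hx => ?_⟩
  have hx1 : (1 : ℝ) < x := by exact_mod_cast (show 1 < x by omega)
  refine (prod_inv_le _ (fun p hp => (mem_GP.1 hp).1.1.two_le)).trans ?_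
  rw [← rpow_log hx1, ← Real.exp_add]
  apply Real.exp_le_exp.2
  have := (abs_le.1 (h x hx (GP G x) (fun p => mem_GP))).2
  linarith

theorem GP_prod {G : ℕ → Prop} {δ : ℝ} (h : Mert G δ) : ∃ C : ℝ, 0 < C ∧ ∀ x : ℕ, 3 ≤ x →
    ∏ p ∈ GP G x, (1 - (1 : ℝ) / p) ≤ C / (Real.log x) ^ δ := by
  obtain ⟨C, hC, h⟩ := h
  refine ⟨Real.exp C, Real.exp_pos _, fun x hx => ?_⟩
  have hx1 : (1 : ℝ) < x := by exact_mod_cast (show 1 < x by omega)
  refine (prod_le _ (fun p hp => (mem_GP.1 hp).1.1.two_le)).trans ?_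
  rw [← rpow_log hx1, ← Real.exp_sub]
  apply Real.exp_le_exp.2
  have := (abs_le.1 (h x hx (GP G x) (fun p => mem_GP))).1
  linarith

/-- the sum of `1 / m` over the integers of a finite set with prime factors in `F` -/
theorem sum_factored (F M : Finset ℕ) (hF : ∀ p ∈ F, p.Prime) (hM : ∀ m ∈ M, m ≠ 0 ∧ ∀ p : ℕ, p.Prime → p ∣ m → p ∈ F) :
    ∑ m ∈ M, (1 : ℝ) / m ≤ ∏ p ∈ F, (1 - (1 : ℝ) / p)⁻¹ := by
  classical
  obtain ⟨f, hf⟩ : ∃ f : ℕ →* ℝ, ∀ m : ℕ, f m = 1 / (m : ℝ) := by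
    refine ⟨⟨⟨fun m => 1 / (m : ℝ), by simp⟩, fun a b => ?_⟩, fun m => rfl⟩
    simp only
    push_cast
    rw [one_div_mul_one_div]
  have h1 := EulerProduct.summable_and_hasSum_factoredNumbers_prod_filter_prime_geometric (f := f)
    (by
      intro p hp
      rw [hf, Real.norm_of_nonneg (by positivity)]
      have : (1 : ℝ) < p := by exact_mod_cast hp.one_lt
      rw [div_lt_one (by linarith)]
      exact this) F
  obtain ⟨h2, h3⟩ := h1
  have h4 : F.filter Nat.Prime = F := filter_true_of_mem hF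
  rw [h4] at h3
  have h5 : ∏ p ∈ F, (1 - (1 : ℝ) / p)⁻¹ = ∏ p ∈ F, (1 - f p)⁻¹ := by
    apply prod_congr rfl
    intro p _
    rw [hf]
  rw [h5, ← h3.tsum_eq]
  have h6 : ∀ m ∈ M, m ∈ Nat.factoredNumbers F := by
    intro m hm
    rw [Nat.mem_factoredNumbers_iff_forall_le]
    refine ⟨(hM m hm).1, fun p _ hp hd => (hM m hm).2 p hp hd⟩
  have h7 : ∑ m ∈ M, (1 : ℝ) / m = ∑ m ∈ M.attach.map ⟨fun m => (⟨m.1, h6 m.1 m.2⟩ : Nat.factoredNumbers F), by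
      intro a b hab
      simp only [Subtype.mk.injEq] at hab
      exact Subtype.ext hab⟩, f m := by
    rw [sum_map, ← sum_attach M (fun m => (1 : ℝ) / m)]
    exact sum_congr rfl fun m _ => (hf m.1).symm
  rw [h7]
  apply h3.summable.sum_le_tsum
  intro m _
  rw [hf]
  positivity

end Pool.Agent.L7h34.NG
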