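import Pool.Agent.L7h34.NG.Count
import Pool.Agent.L7h34.DF.Avg

set_option autoImplicit false

/-! # The choice of the classes modulo the small primes -/

namespace Pool.Agent.L7h34.NG

open Finset Filter

theorem inv_class (N a m : ℕ) (hm : 1 ≤ m) (h : N.Coprime m) : ∃ n : ℕ, N * n ≡ a [MOD m] := by
  have : NeZero m := ⟨by omega⟩
  refine ⟨((N : ZMod m)⁻¹ * a).val, ?_⟩
  rw [← ZMod.natCast_eq_natCast_iff]
  push_cast
  rw [ZMod.natCast_zmod_val, ← mul_assoc, ZMod.coe_mul_inv_eq_one N h, one_mul]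

theorem zero_class (p j : ℕ) (hp : 1 ≤ p) : ((range p).filter (fun c => p ∣ c + j)).card = 1 := by
  rw [card_eq_one]
  refine ⟨(p - j % p) % p, ?_⟩
  have hjp : j % p < p := Nat.mod_lt _ hp
  have hdj : j = p * (j / p) + j % p := (Nat.div_add_mod j p).symm
  ext c
  rw [mem_filter, mem_range, mem_singleton]
  constructor
  · rintro ⟨h1, h2⟩
    have h3 : p ∣ c + j % p := by
      rw [hdj] at h2
      rw [show c + (p * (j / p) + j % p) = (c + j % p) + p * (j / p) by ring] at h2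
      exact (Nat.dvd_add_left (dvd_mul_right _ _)).1 h2
    obtain ⟨k, hk⟩ := h3
    have hk2 : k < 2 := by
      by_contra hcon
      have : p * 2 ≤ p * k := Nat.mul_le_mul_left p (by omega)
      omega
    interval_cases k
    · have h4 : c = 0 := by omega
      have h5 : j % p = 0 := by omega
      rw [h4, h5, Nat.sub_zero, Nat.mod_self]
    · have h4 : c = p - j % p := by omega
      rw [← h4, Nat.mod_eq_of_lt h1]
  · rintro rfl
    refine ⟨Nat.mod_lt _ hp, ?_⟩
    have h3 : p ∣ (p - j % p) % p + j % p := by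
      rw [Nat.dvd_iff_mod_eq_zero, Nat.mod_add_mod, Nat.sub_add_cancel hjp.le, Nat.mod_self]
    rw [hdj, show (p - (p * (j / p) + j % p) % p) % p + (p * (j / p) + j % p) =
      ((p - (p * (j / p) + j % p) % p) % p + j % p) + p * (j / p) by ring, ← hdj]
    exact Dvd.dvd.add h3 (dvd_mul_right _ _)

open scoped Classical in
/-- the modulus of the prime `p` -/
noncomputable def md (N : ℕ) (G : ℕ → Prop) (B₂ p : ℕ) : ℕ :=
  if G p then p else if p ∣ N then 1 else p ^ (Nat.log p B₂ + 1)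

theorem md_le (N : ℕ) (G : ℕ → Prop) (B₂ p : ℕ) (hp : p.Prime) (hB : 1 ≤ B₂) : md N G B₂ p ≤ p * B₂ := by
  unfold md
  split_ifs
  · exact Nat.le_mul_of_pos_right _ hB
  · exact Nat.mul_pos hp.pos hB
  · rw [pow_succ, mul_comm]
    exact Nat.mul_le_mul_left _ (Nat.pow_log_le_self p (by omega))

theorem md_pos (N : ℕ) (G : ℕ → Prop) (B₂ p : ℕ) (hp : p.Prime) : 1 ≤ md N G B₂ p := by
  unfold md
  split_ifs
  · exact hp.pos
  · exact le_rfl
  · exact Nat.pow_pos hp.pos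

theorem md_prime (N : ℕ) (G : ℕ → Prop) (B₂ p r : ℕ) (hp : p.Prime) (hr : r.Prime) (h : r ∣ md N G B₂ p) : r = p := by
  unfold md at h
  split_ifs at h
  · exact (Nat.prime_dvd_prime_iff_eq hr hp).1 h
  · exact absurd (Nat.dvd_one.1 h) hr.one_lt.ne'
  · exact (Nat.prime_dvd_prime_iff_eq hr hp).1 (hr.dvd_of_dvd_pow h)

/-- the class -/
theorem presieve (N a : ℕ) (G : ℕ → Prop) (R : Finset ℕ) (y B₂ : ℕ) (hB₂ : 1 ≤ B₂) :
    ∃ W n₀ : ℕ, ∃ R' : Finset ℕ, R' ⊆ R ∧ 1 ≤ W ∧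
      (W : ℝ) ≤ (4 : ℝ) ^ y * (B₂ : ℝ) ^ ((Icc 1 y).filter Nat.Prime).card ∧
      (∀ p : ℕ, p.Prime → p ∣ W → p ≤ y) ∧
      (R'.card : ℝ) ≤ R.card * ∏ p ∈ GP G y, (1 - (1 : ℝ) / p) ∧
      ∀ n : ℕ, n ≡ n₀ [MOD W] →
        (∀ p : ℕ, p.Prime → ¬ G p → ¬ p ∣ N → p ≤ y → N * n ≡ a [MOD p ^ (Nat.log p B₂ + 1)]) ∧
        ∀ j ∈ R, j ∉ R' → ∃ p : ℕ, p.Prime ∧ p ≤ y ∧ p ∣ n + j := by
  classical
  obtain ⟨b, hb1, hb2⟩ := Pool.Agent.L7h34.DF.choose_classes (κ := ℕ) (GP G y)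
    (fun p hp => (mem_GP.1 hp).1.1.one_lt.le) (fun p j => (range p).filter (fun c => p ∣ c + j)) R
    (fun p _ j _ => filter_subset _ _)
  obtain ⟨P, hP⟩ : ∃ P, P = (Icc 1 y).filter Nat.Prime := ⟨_, rfl⟩
  have hPp : ∀ p ∈ P, p.Prime ∧ p ≤ y := by
    intro p hp
    rw [hP, mem_filter, mem_Icc] at hp
    exact ⟨hp.2, hp.1.2⟩
  have hcl : ∀ p : ℕ, ∃ t : ℕ, p ∈ P → (G p → t = b p) ∧
      (¬ G p → ¬ p ∣ N → N * t ≡ a [MOD p ^ (Nat.log p B₂ + 1)]) := by
    intro p
    by_cases hpP : p ∈ P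
    · by_cases hG : G p
      · exact ⟨b p, fun _ => ⟨fun _ => rfl, fun h => absurd hG h⟩⟩
      · by_cases hN : p ∣ N
        · exact ⟨0, fun _ => ⟨fun h => absurd h hG, fun _ h => absurd hN h⟩⟩
        · have hp := (hPp p hpP).1
          obtain ⟨t, ht⟩ := inv_class N a (p ^ (Nat.log p B₂ + 1)) (Nat.pow_pos hp.pos)
            (Nat.Coprime.pow_right _ ((Nat.Prime.coprime_iff_not_dvd hp).2 hN).symm)
          exact ⟨t, fun _ => ⟨fun h => absurd h hG, fun _ _ => ht⟩⟩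
    · exact ⟨0, fun h => absurd h hpP⟩
  choose t ht using hcl
  obtain ⟨n₀, hn₀⟩ := Nat.chineseRemainderOfFinset t (md N G B₂) P
    (fun p hp => by have := md_pos N G B₂ p (hPp p hp).1; omega)
    (by
      intro p hp q hq hpq
      apply Nat.Coprime.symm
      rw [Nat.coprime_iff_gcd_eq_one]
      by_contra hcon
      obtain ⟨r, hr, hrd⟩ := Nat.exists_prime_and_dvd hcon
      have h1 := md_prime N G B₂ p r (hPp p hp).1 hr (hrd.trans (Nat.gcd_dvd_right _ _))
      have h2 := md_prime N G B₂ q r (hPp q hq).1 hr (hrd.trans (Nat.gcd_dvd_left _ _))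
      exact hpq (h1.symm.trans h2))
  obtain ⟨W, hW⟩ : ∃ W, W = ∏ p ∈ P, md N G B₂ p := ⟨_, rfl⟩
  refine ⟨W, n₀, R.filter (fun j => ∀ p ∈ GP G y, ¬ p ∣ b p + j), filter_subset _ _, ?_, ?_, ?_, ?_, ?_⟩
  · rw [hW]
    exact Nat.one_le_iff_ne_zero.2 (prod_ne_zero_iff.2 fun p hp => by
      have := md_pos N G B₂ p (hPp p hp).1
      omega)
  · have h1 : W ≤ 4 ^ y * B₂ ^ P.card := by
      rw [hW]
      calc ∏ p ∈ P, md N G B₂ p ≤ ∏ p ∈ P, (p * B₂) :=
            prod_le_prod' fun p hp => md_le N G B₂ p (hPp p hp).1 hB₂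
        _ = (∏ p ∈ P, p) * B₂ ^ P.card := by rw [prod_mul_distrib, prod_const]
        _ ≤ 4 ^ y * B₂ ^ P.card := by
            apply Nat.mul_le_mul_right
            have h2 := primorial_le_four_pow y
            refine le_trans (le_of_eq ?_) h2
            unfold primorial
            apply prod_congr _ fun _ _ => rfl
            rw [hP]
            ext p
            rw [mem_filter, mem_filter, mem_Icc, mem_range]
            constructor
            · rintro ⟨⟨_, h3⟩, h4⟩; exact ⟨by omega, h4⟩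
            · rintro ⟨h3, h4⟩; exact ⟨⟨h4.one_lt.le, by omega⟩, h4⟩
    rw [← hP]
    exact_mod_cast h1
  · intro p hp hd
    rw [hW] at hd
    obtain ⟨q, hq, hpq⟩ := (Prime.dvd_finsetProd_iff hp.prime _).1 hd
    rw [md_prime N G B₂ q p (hPp q hq).1 hp hpq]
    exact (hPp q hq).2
  · have h1 : (R.filter (fun j => ∀ p ∈ GP G y, ¬ p ∣ b p + j)) =
        R.filter (fun j => ∀ p ∈ GP G y, b p ∉ (range p).filter (fun c => p ∣ c + j)) := by
      apply filter_congr
      intro j _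
      constructor
      · intro h p hp hmem
        exact h p hp (mem_filter.1 hmem).2
      · intro h p hp hd
        exact h p hp (mem_filter.2 ⟨mem_range.2 (hb1 p hp), hd⟩)
    rw [h1]
    refine hb2.trans (le_of_eq ?_)
    rw [sum_congr rfl (fun j _ => prod_congr rfl (fun p hp => by
      rw [zero_class p j (mem_GP.1 hp).1.1.one_lt.le, Nat.cast_one])), sum_const, nsmul_eq_mul]
  · intro n hn
    have hmod : ∀ p ∈ P, n ≡ t p [MOD md N G B₂ p] := by
      intro p hp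
      have h1 : md N G B₂ p ∣ W := by rw [hW]; exact dvd_prod_of_mem _ hp
      exact (hn.of_dvd h1).trans (hn₀ p hp)
    refine ⟨fun p hp hG hN hpy => ?_, fun j hj hjn => ?_⟩
    · have hpP : p ∈ P := by
        rw [hP, mem_filter, mem_Icc]
        exact ⟨⟨hp.one_lt.le, hpy⟩, hp⟩
      have h1 := hmod p hpP
      have h2 : md N G B₂ p = p ^ (Nat.log p B₂ + 1) := by
        unfold md
        rw [if_neg hG, if_neg hN]
      rw [h2] at h1
      exact (Nat.ModEq.mul_left N h1).trans ((ht p hpP).2 hG hN)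
    · rw [mem_filter, not_and] at hjn
      have h1 := hjn hj
      push Not at h1
      obtain ⟨p, hp, hd⟩ := h1
      have hp' := mem_GP.1 hp
      have hpP : p ∈ P := by
        rw [hP, mem_filter, mem_Icc]
        exact ⟨⟨hp'.1.1.one_lt.le, hp'.2⟩, hp'.1.1⟩
      have h2 := hmod p hpP
      have h3 : md N G B₂ p = p := by
        unfold md
        rw [if_pos hp'.1.2]
      rw [h3, (ht p hpP).1 hp'.1.2] at h2
      refine ⟨p, hp'.1.1, hp'.2, ?_⟩
      have h4 : n + j ≡ b p + j [MOD p] := Nat.ModEq.add_right j h2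
      exact (h4.dvd_iff dvd_rfl).2 hd

end Pool.Agent.L7h34.NG
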