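import Pool.Agent.L7h34.NG.Grp
import Pool.Agent.Helper919.NonRes

set_option autoImplicit false

/-! # Binary quadratic forms -/

namespace Pool.Agent.L7h34.NG

open Finset Filter

/-- if `Δ` is not a square modulo `p`, the values of the forms of discriminant `Δ` contain `p` to an even power -/
theorem even_val (p : ℕ) (hp : p.Prime) (hp2 : p ≠ 2) (Δ : ℤ) (hJ : jacobiSym Δ p = -1) (m : ℕ) (hm : m ≠ 0)
    (A B C : ℤ) (hd : B ^ 2 - 4 * A * C = Δ) :
    ∀ x y : ℤ, (m : ℤ) = A * x ^ 2 + B * x * y + C * y ^ 2 → Even (m.factorization p) := by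
  have : Fact p.Prime := ⟨hp⟩
  have hpz : Prime (p : ℤ) := Nat.prime_iff_prime_int.mp hp
  have hns : ¬ IsSquare ((Δ : ℤ) : ZMod p) := by
    rw [← legendreSym.eq_neg_one_iff p, jacobiSym.legendreSym.to_jacobiSym]
    exact hJ
  have hsq : ∀ z : ℤ, ¬ (p : ℤ) ∣ z ^ 2 - Δ := by
    intro z hz
    apply hns
    refine ⟨(z : ZMod p), ?_⟩
    have h1 : ((z ^ 2 - Δ : ℤ) : ZMod p) = 0 := (ZMod.intCast_zmod_eq_zero_iff_dvd _ _).2 hz
    push_cast at h1
    linear_combination -h1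
  have hpA : ¬ (p : ℤ) ∣ A := by
    intro h
    apply hsq B
    have : B ^ 2 - Δ = A * (4 * C) := by rw [← hd]; ring
    rw [this]
    exact h.mul_right _
  have h2p : ¬ (p : ℤ) ∣ 2 := by
    intro h
    have h1 : p ∣ 2 := by exact_mod_cast h
    exact hp2 ((Nat.prime_dvd_prime_iff_eq hp Nat.prime_two).1 h1)
  induction m using Nat.strong_induction_on with
  | _ m ih =>
    intro x y hxy
    by_cases hpm : p ∣ m
    · have hpmz : (p : ℤ) ∣ m := by exact_mod_cast hpm
      have e1 : 4 * A * (m : ℤ) = (2 * A * x + B * y) ^ 2 - Δ * y ^ 2 := by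
        rw [hxy, ← hd]; ring
      have h3 : (p : ℤ) ∣ (2 * A * x + B * y) ^ 2 - Δ * y ^ 2 := by
        rw [← e1]; exact hpmz.mul_left _
      have hy : (p : ℤ) ∣ y := by
        by_contra hy
        apply hns
        have hy' : (y : ZMod p) ≠ 0 := by
          intro h
          exact hy ((ZMod.intCast_zmod_eq_zero_iff_dvd _ _).1 h)
        have h4 : (((2 * A * x + B * y) ^ 2 - Δ * y ^ 2 : ℤ) : ZMod p) = 0 :=
          (ZMod.intCast_zmod_eq_zero_iff_dvd _ _).2 h3
        push_cast at h4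
        refine ⟨(2 * A * x + B * y) / y, ?_⟩
        field_simp
        linear_combination -h4
      have hx : (p : ℤ) ∣ x := by
        have h4 : (p : ℤ) ∣ (2 * A * x + B * y) ^ 2 := by
          have := dvd_add h3 (hy.mul_left (Δ * y))
          have e2 : (2 * A * x + B * y) ^ 2 - Δ * y ^ 2 + Δ * y * y = (2 * A * x + B * y) ^ 2 := by ring
          rwa [e2] at this
        have h5 := hpz.dvd_of_dvd_pow h4
        have h6 : (p : ℤ) ∣ 2 * A * x := (dvd_add_left (hy.mul_left B)).1 h5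
        rcases hpz.dvd_or_dvd h6 with h7 | h7
        · rcases hpz.dvd_or_dvd h7 with h8 | h8
          · exact absurd h8 h2p
          · exact absurd h8 hpA
        · exact h7
      obtain ⟨x', rfl⟩ := hx
      obtain ⟨y', rfl⟩ := hy
      have e3 : (m : ℤ) = p ^ 2 * (A * x' ^ 2 + B * x' * y' + C * y' ^ 2) := by rw [hxy]; ring
      have hpp : (0 : ℤ) < p ^ 2 := by
        have : (0 : ℤ) < p := by exact_mod_cast hp.pos
        positivity
      have h9 : 0 ≤ A * x' ^ 2 + B * x' * y' + C * y' ^ 2 := by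
        by_contra hcon
        push Not at hcon
        have : (p : ℤ) ^ 2 * (A * x' ^ 2 + B * x' * y' + C * y' ^ 2) < 0 := mul_neg_of_pos_of_neg hpp hcon
        have h10 : (0 : ℤ) ≤ m := Int.natCast_nonneg m
        omega
      obtain ⟨k, hk⟩ := Int.eq_ofNat_of_zero_le h9
      rw [hk] at e3
      have e4 : m = p ^ 2 * k := by exact_mod_cast e3
      have hk0 : k ≠ 0 := by
        rintro rfl
        rw [mul_zero] at e4
        exact hm e4
      have hklt : k < m := by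
        rw [e4]
        have : 1 < p ^ 2 := Nat.one_lt_pow two_ne_zero hp.one_lt
        have hk1 : 0 < k := Nat.pos_of_ne_zero hk0
        nlinarith
      have h11 := ih k hklt hk0 x' y' hk.symm
      rw [e4, Nat.factorization_mul (pow_ne_zero 2 hp.ne_zero) hk0, Finsupp.add_apply, hp.factorization_pow,
        Finsupp.single_eq_same]
      exact even_two.add h11
    · rw [Nat.factorization_eq_zero_of_not_dvd hpm]
      exact Even.zero

/-- **Binary quadratic forms.** -/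
theorem quad (Δ : ℤ) (hΔ : ¬ IsSquare Δ) : ∃ c : ℝ, 0 < c ∧ ∃ X₀ : ℝ, ∀ X : ℝ, X₀ ≤ X → ∀ M : ℕ, ∃ n : ℕ,
      M < n ∧ (n : ℝ) ≤ M + X ∧
      (∀ j : ℕ, 1 ≤ j → (j : ℝ) ≤ c * ll (1 / 2) X → ¬ (n + j).Prime) ∧
      ∀ j : ℕ, 1 ≤ j → (j : ℝ) ≤ c * Real.log X → ∀ A B C x y : ℤ, B ^ 2 - 4 * A * C = Δ →
        ((n + j : ℕ) : ℤ) ≠ A * x ^ 2 + B * x * y + C * y ^ 2 := by
  classical
  have hΔ0 : Δ ≠ 0 := by
    rintro rfl
    exact hΔ ⟨0, by simp⟩
  have hΔ1 : 1 ≤ Δ.natAbs := Nat.one_le_iff_ne_zero.2 (Int.natAbs_ne_zero.2 hΔ0)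
  obtain ⟨N, hN⟩ : ∃ N, N = 4 * Δ.natAbs := ⟨_, rfl⟩
  have hN4 : 4 ≤ N := by omega
  have : NeZero N := ⟨by omega⟩
  have : Fact (1 < N) := ⟨by omega⟩
  have hodd : ∀ b : ℕ, b.Coprime N → Odd b := by
    intro b hb
    rw [← Nat.not_even_iff_odd]
    intro h
    have h2 : 2 ∣ Nat.gcd b N := Nat.dvd_gcd h.two_dvd (by rw [hN]; exact ⟨2 * Δ.natAbs, by ring⟩)
    rw [hb] at h2
    omega
  have hvc : ∀ u : (ZMod N)ˣ, (u : ZMod N).val.Coprime N := fun u => ZMod.val_coe_unit_coprime u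
  obtain ⟨φ, hφ⟩ : ∃ φ : (ZMod N)ˣ →* ℤ, ∀ u, φ u = jacobiSym Δ (u : ZMod N).val := by
    refine ⟨⟨⟨fun u => jacobiSym Δ (u : ZMod N).val, ?_⟩, ?_⟩, fun u => rfl⟩
    · simp only [Units.val_one, ZMod.val_one, jacobiSym.one_right]
    · intro u v
      simp only [Units.val_mul]
      rw [ZMod.val_mul]
      have h1 : Odd ((u : ZMod N).val * (v : ZMod N).val) := (hodd _ (hvc u)).mul (hodd _ (hvc v))
      have : NeZero (u : ZMod N).val := ⟨by
        intro h
        have := hodd _ (hvc u)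
        rw [h] at this
        exact absurd this (by decide)⟩
      have : NeZero (v : ZMod N).val := ⟨by
        intro h
        have := hodd _ (hvc v)
        rw [h] at this
        exact absurd this (by decide)⟩
      rw [← jacobiSym.mul_right]
      conv_rhs => rw [jacobiSym.mod_right Δ h1, ← hN]
  obtain ⟨ψ, hψ⟩ : ∃ ψ : (ZMod N)ˣ →* ℤˣ, ψ = φ.toHomUnits := ⟨_, rfl⟩
  have hψv : ∀ u, ((ψ u : ℤˣ) : ℤ) = jacobiSym Δ (u : ZMod N).val := by
    intro u
    rw [hψ, MonoidHom.coe_toHomUnits, hφ]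
  obtain ⟨b, hb, hbJ⟩ := Pool.Agent.Helper919.exists_jacobi_neg_one Δ hΔ
  have hbN : b.Coprime N := by
    rw [hN]
    apply Nat.Coprime.mul_right
    · have : b.Coprime (2 ^ 2) := Nat.Coprime.pow_right 2 (Nat.coprime_two_right.2 hb)
      exact this
    · have : NeZero b := ⟨by rintro rfl; exact absurd hb (by decide)⟩
      have h1 : ¬ (Δ.gcd b ≠ 1) := by
        intro h
        rw [jacobiSym.eq_zero_iff_not_coprime.2 h] at hbJ
        norm_num at hbJ
      push Not at h1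
      exact Nat.Coprime.symm (show Nat.gcd Δ.natAbs b = 1 from h1)
  obtain ⟨a, ha⟩ : ∃ a : (ZMod N)ˣ, a = ZMod.unitOfCoprime b hbN := ⟨_, rfl⟩
  have haψ : ψ a = -1 := by
    apply Units.ext
    rw [hψv, ha, ZMod.coe_unitOfCoprime, ZMod.val_natCast, hN, ← jacobiSym.mod_right Δ hb, hbJ]
    rfl
  have hsurj : Function.Surjective ψ := by
    intro z
    rcases Int.units_eq_one_or z with rfl | rfl
    · exact ⟨1, map_one ψ⟩
    · exact ⟨a, haψ⟩
  have hidx : ((({ψ.ker} : Finset (Subgroup (ZMod N)ˣ)).inf id).index : ℝ)⁻¹ = 1 / 2 := by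
    rw [Finset.inf_singleton, id, Subgroup.index_ker, MonoidHom.range_eq_top.2 hsurj, Subgroup.card_top,
      Nat.card_eq_fintype_card, Fintype.card_units_int]
    norm_num
  obtain ⟨c, hc, X₀, h⟩ := abel N {ψ.ker} (singleton_nonempty _) a (by
    intro H hH
    rw [mem_singleton.1 hH, MonoidHom.mem_ker, haψ]
    decide)
  refine ⟨c, hc, X₀, fun X hX M => ?_⟩
  obtain ⟨n, h1, h2, h3, h4⟩ := h X hX M
  rw [hidx] at h3
  refine ⟨n, h1, h2, h3, fun j hj1 hj2 A B C x y hd hxy => ?_⟩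
  obtain ⟨p, u, hp, hup, hu⟩ := h4 j hj1 hj2 ψ.ker (mem_singleton_self _)
  rw [MonoidHom.mem_ker, map_pow] at hu
  have hψu : ψ u = -1 := by
    rcases Int.units_eq_one_or (ψ u) with h5 | h5
    · rw [h5, one_pow] at hu
      exact absurd rfl hu
    · exact h5
  have hpN : p.Coprime N := by
    rw [← ZMod.isUnit_iff_coprime, ← hup]
    exact u.isUnit
  have hpo : Odd p := hodd p hpN
  have hJ : jacobiSym Δ p = -1 := by
    have h5 := hψv u
    rw [hψu, hup, ZMod.val_natCast, hN, ← jacobiSym.mod_right Δ hpo] at h5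
    rw [← h5]
    rfl
  have hev := even_val p hp (by rintro rfl; exact absurd hpo (by decide)) Δ hJ (n + j) (by omega) A B C hd x y hxy
  rw [hψu, hev.neg_one_pow] at hu
  exact hu rfl

end Pool.Agent.L7h34.NG
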